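import Pool.Agent.H31.BOU.Targets1

/-! Board bou, row ABL: summation by parts with a Lipschitz weight. -/

namespace Pool.Agent.H42.BOU

open Finset Pool.Agent.H31.BOU

theorem sumIco (f : ℤ → ℂ) (x : ℤ) (n : ℕ) :
    ∑ v ∈ Ico x (x + n), f v = ∑ i ∈ range n, f (x + i) := by
  refine Finset.sum_nbij' (fun v => (v - x).toNat) (fun i => x + (i : ℤ)) ?_ ?_ ?_ ?_ ?_
  · intro v hv
    rw [mem_Ico] at hv
    rw [mem_range]
    omega
  · intro i hi
    rw [mem_range] at hi
    rw [mem_Ico]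
    omega
  · intro v hv
    rw [mem_Ico] at hv
    show x + ((v - x).toNat : ℤ) = v
    omega
  · intro i hi
    show (x + (i : ℤ) - x).toNat = i
    omega
  · intro v hv
    rw [mem_Ico] at hv
    have : v = x + ((v - x).toNat : ℤ) := by omega
    show f v = f (x + ((v - x).toNat : ℤ))
    rw [← this]

theorem norm_ee (t : ℝ) : ‖ee t‖ = 1 := by
  unfold ee
  exact Complex.norm_exp_ofReal_mul_I _

theorem pf_ABL (hG : T_GEO) : T_ABL := by
  intro θ x y w W L hxy hW hL hw hl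
  obtain ⟨n, rfl⟩ : ∃ n : ℕ, y = x + n := ⟨(y - x).toNat, by omega⟩
  have hn : ((x + (n : ℤ) - x : ℤ) : ℝ) = n := by
    push_cast
    ring
  have hnd : 0 ≤ 2 * nd θ := by
    unfold nd
    positivity
  rw [hn, sumIco (fun v => (w v : ℂ) * ee (θ * (v : ℝ))) x n]
  have hwi : ∀ i ∈ range n, |w (x + i)| ≤ W := by
    intro i hi
    rw [mem_range] at hi
    exact hw _ (by rw [mem_Ico]; omega)
  constructor
  · refine (norm_sum_le _ _).trans ?_
    have h1 : ∀ i ∈ range n, ‖(w (x + i) : ℂ) * ee (θ * ((x + i : ℤ) : ℝ))‖ ≤ W := by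
      intro i hi
      rw [norm_mul, norm_ee, mul_one, Complex.norm_real, Real.norm_eq_abs]
      exact hwi i hi
    refine (Finset.sum_le_sum h1).trans ?_
    rw [Finset.sum_const, card_range, nsmul_eq_mul, mul_comm]
  · rcases Nat.eq_zero_or_pos n with h0 | h0
    · subst h0
      simp only [range_zero, sum_empty, norm_zero, zero_mul, Nat.cast_zero, mul_zero, add_zero]
      exact hW
    · have hS : ∀ k : ℕ, ‖∑ i ∈ range k, ee (θ * ((x + i : ℤ) : ℝ))‖ * (2 * nd θ) ≤ 1 := by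
        intro k
        have := (hG θ x (x + k) (by omega)).2
        rwa [sumIco (fun v => ee (θ * (v : ℝ))) x k] at this
      have hab := Finset.sum_range_by_parts (fun i : ℕ => (w (x + i) : ℂ))
        (fun i : ℕ => ee (θ * ((x + i : ℤ) : ℝ))) n
      simp only [smul_eq_mul] at hab
      rw [hab]
      have h2 : ‖(w (x + ((n - 1 : ℕ) : ℤ)) : ℂ) * ∑ i ∈ range n, ee (θ * ((x + i : ℤ) : ℝ))‖ *
          (2 * nd θ) ≤ W := by
        rw [norm_mul, Complex.norm_real, Real.norm_eq_abs, mul_assoc]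
        have h3 := hwi (n - 1) (by rw [mem_range]; omega)
        calc |w (x + ((n - 1 : ℕ) : ℤ))| * (‖∑ i ∈ range n, ee (θ * ((x + i : ℤ) : ℝ))‖ *
              (2 * nd θ)) ≤ W * 1 :=
              mul_le_mul h3 (hS n) (mul_nonneg (norm_nonneg _) hnd) hW
          _ = W := mul_one W
      have h4 : ‖∑ i ∈ range (n - 1), ((w (x + ((i + 1 : ℕ) : ℤ)) : ℂ) - (w (x + i) : ℂ)) *
          ∑ k ∈ range (i + 1), ee (θ * ((x + k : ℤ) : ℝ))‖ * (2 * nd θ) ≤ L * n := by
        refine (mul_le_mul_of_nonneg_right (norm_sum_le _ _) hnd).trans ?_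
        rw [Finset.sum_mul]
        have h5 : ∀ i ∈ range (n - 1), ‖((w (x + ((i + 1 : ℕ) : ℤ)) : ℂ) - (w (x + i) : ℂ)) *
            ∑ k ∈ range (i + 1), ee (θ * ((x + k : ℤ) : ℝ))‖ * (2 * nd θ) ≤ L := by
          intro i hi
          rw [mem_range] at hi
          rw [norm_mul, ← Complex.ofReal_sub, Complex.norm_real, Real.norm_eq_abs, mul_assoc]
          have h6 : |w (x + ((i + 1 : ℕ) : ℤ)) - w (x + i)| ≤ L := by
            have h7 := hl (x + i) (by rw [mem_Ico]; omega) (by rw [mem_Ico]; omega)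
            have h8 : x + ((i + 1 : ℕ) : ℤ) = x + i + 1 := by
              push_cast
              ring
            rw [h8]
            exact h7
          calc |w (x + ((i + 1 : ℕ) : ℤ)) - w (x + i)| *
                (‖∑ k ∈ range (i + 1), ee (θ * ((x + k : ℤ) : ℝ))‖ * (2 * nd θ)) ≤ L * 1 :=
                mul_le_mul h6 (hS (i + 1)) (mul_nonneg (norm_nonneg _) hnd) hL
            _ = L := mul_one L
        refine (Finset.sum_le_sum h5).trans ?_
        rw [Finset.sum_const, card_range, nsmul_eq_mul, mul_comm]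
        refine mul_le_mul_of_nonneg_left ?_ hL
        exact_mod_cast Nat.sub_le n 1
      calc ‖(w (x + ((n - 1 : ℕ) : ℤ)) : ℂ) * ∑ i ∈ range n, ee (θ * ((x + i : ℤ) : ℝ)) -
            ∑ i ∈ range (n - 1), ((w (x + ((i + 1 : ℕ) : ℤ)) : ℂ) - (w (x + i) : ℂ)) *
              ∑ k ∈ range (i + 1), ee (θ * ((x + k : ℤ) : ℝ))‖ * (2 * nd θ) ≤
            (‖(w (x + ((n - 1 : ℕ) : ℤ)) : ℂ) * ∑ i ∈ range n, ee (θ * ((x + i : ℤ) : ℝ))‖ +
            ‖∑ i ∈ range (n - 1), ((w (x + ((i + 1 : ℕ) : ℤ)) : ℂ) - (w (x + i) : ℂ)) *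
              ∑ k ∈ range (i + 1), ee (θ * ((x + k : ℤ) : ℝ))‖) * (2 * nd θ) :=
            mul_le_mul_of_nonneg_right (norm_sub_le _ _) hnd
        _ ≤ W + L * n := by
            rw [add_mul]
            exact add_le_add h2 h4

end Pool.Agent.H42.BOU
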