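import Pool.Agent.H31.BOU.Targets1

/-! Board bou, row INV: Fourier inversion, Parseval and orthogonality on a block. -/

namespace Pool.Agent.H42.BOU.INV

open Finset Pool.Agent.H31.BOU

theorem ee_add (s t : ℝ) : ee (s + t) = ee s * ee t := by
  unfold ee
  rw [← Complex.exp_add]
  congr 1
  push_cast
  ring

theorem ee_one_iff (t : ℝ) : ee t = 1 ↔ ∃ n : ℤ, t = n := by
  unfold ee
  rw [Complex.exp_eq_one_iff]
  constructor
  · rintro ⟨n, hn⟩
    refine ⟨n, ?_⟩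
    have h1 : ((2 * Real.pi * t : ℝ) : ℂ) = ((2 * Real.pi * n : ℝ) : ℂ) := by
      apply mul_right_cancel₀ Complex.I_ne_zero
      rw [hn]
      push_cast
      ring
    exact mul_left_cancel₀ (by positivity) (Complex.ofReal_injective h1)
  · rintro ⟨n, rfl⟩
    refine ⟨n, ?_⟩
    push_cast
    ring

theorem ee_pow (t : ℝ) (n : ℕ) : ee ((n : ℝ) * t) = ee t ^ n := by
  unfold ee
  rw [← Complex.exp_nat_mul]
  congr 1
  push_cast
  ring

theorem conj_ee (t : ℝ) : (starRingEnd ℂ) (ee t) = ee (-t) := by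
  unfold ee
  rw [← Complex.exp_conj]
  congr 1
  rw [map_mul, Complex.conj_ofReal, Complex.conj_I]
  push_cast
  ring

/-- the geometric sum -/
theorem geo {M : ℕ} (hM : 0 < M) (k : ℤ) :
    ∑ i ∈ range M, ee ((k : ℝ) * (i : ℝ) / M) = if (M : ℤ) ∣ k then (M : ℂ) else 0 := by
  have hM' : (M : ℝ) ≠ 0 := by exact_mod_cast hM.ne'
  have e1 : ∀ i : ℕ, ee ((k : ℝ) * (i : ℝ) / M) = ee ((k : ℝ) / M) ^ i := by
    intro i
    rw [← ee_pow]
    congr 1
    ring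
  simp only [e1]
  split_ifs with h
  · obtain ⟨c, rfl⟩ := h
    have e2 : ee ((((M : ℤ) * c : ℤ) : ℝ) / M) = 1 := by
      rw [ee_one_iff]
      refine ⟨c, ?_⟩
      push_cast
      field_simp
    rw [e2]
    simp
  · have hz : ee ((k : ℝ) / M) ≠ 1 := by
      intro h1
      rw [ee_one_iff] at h1
      obtain ⟨c, hc⟩ := h1
      apply h
      refine ⟨c, ?_⟩
      rw [div_eq_iff hM'] at hc
      have h2 : (k : ℝ) = (((M : ℤ) * c : ℤ) : ℝ) := by
        rw [hc]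
        push_cast
        ring
      exact_mod_cast h2
    have hz2 : ee ((k : ℝ) / M) ^ M = 1 := by
      rw [← ee_pow, ee_one_iff]
      refine ⟨k, ?_⟩
      field_simp
    have h3 := mul_geom_sum (ee ((k : ℝ) / M)) M
    rw [hz2, sub_self] at h3
    rcases mul_eq_zero.1 h3 with h4 | h4
    · exact absurd (sub_eq_zero.1 h4) hz
    · exact h4

theorem sumIco (f : ℤ → ℂ) (x : ℤ) (n : ℕ) :
    ∑ v ∈ Ico x (x + n), f v = ∑ i ∈ range n, f (x + i) := by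
  refine Finset.sum_nbij' (fun v => (v - x).toNat) (fun i => x + (i : ℤ)) ?_ ?_ ?_ ?_ ?_
  · intro v hv
    rw [mem_Ico] at hv
    rw [mem_range]
    omega
  · intro i hi
    rw [mem_range] at hi
    rw [mem_Ico]
    omega
  · intro v hv
    rw [mem_Ico] at hv
    show x + ((v - x).toNat : ℤ) = v
    omega
  · intro i hi
    show (x + (i : ℤ) - x).toNat = i
    omega
  · intro v hv
    rw [mem_Ico] at hv
    have : v = x + ((v - x).toNat : ℤ) := by omega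
    show f v = f (x + ((v - x).toNat : ℤ))
    rw [← this]

theorem blk_eq (j : ℕ) (m : ℤ) : blk j m = Ico (m * 2 ^ j) (m * 2 ^ j + ((2 ^ j : ℕ) : ℤ)) := by
  unfold blk
  congr 1
  push_cast
  ring

theorem orth (j : ℕ) (m : ℤ) {a b : ℕ} (ha : a ∈ range (2 ^ j)) (hb : b ∈ range (2 ^ j)) :
    ∑ v ∈ blk j m, ee ((b : ℝ) * (v : ℝ) / 2 ^ j) * ee (-((a : ℝ) * (v : ℝ) / 2 ^ j))
      = if a = b then (2 : ℂ) ^ j else 0 := by
  rw [mem_range] at ha hb
  have hM : 0 < 2 ^ j := by positivity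
  rw [blk_eq, sumIco]
  have e1 : ∀ i : ℕ, ee ((b : ℝ) * ((m * 2 ^ j + i : ℤ) : ℝ) / 2 ^ j) *
      ee (-((a : ℝ) * ((m * 2 ^ j + i : ℤ) : ℝ) / 2 ^ j)) =
      ee ((((b : ℤ) - a : ℤ) : ℝ) * (i : ℝ) / ((2 ^ j : ℕ) : ℝ)) := by
    intro i
    rw [← ee_add]
    have h2 : (2 : ℝ) ^ j ≠ 0 := by positivity
    have e2 : (b : ℝ) * ((m * 2 ^ j + i : ℤ) : ℝ) / 2 ^ j + -((a : ℝ) *
        ((m * 2 ^ j + i : ℤ) : ℝ) / 2 ^ j) =
        ((((b : ℤ) - a) * m : ℤ) : ℝ) + (((b : ℤ) - a : ℤ) : ℝ) * (i : ℝ) / ((2 ^ j : ℕ) : ℝ) := by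
      push_cast
      field_simp
      ring
    rw [e2, ee_add, (ee_one_iff _).2 ⟨_, rfl⟩, one_mul]
  simp only [e1]
  rw [geo hM]
  have e3 : ((2 ^ j : ℕ) : ℤ) ∣ (b : ℤ) - a ↔ a = b := by
    constructor
    · intro h
      have h1 := Int.eq_zero_of_abs_lt_dvd h (by
        rw [abs_lt]
        constructor <;> push_cast <;> [skip; skip] <;>
        · have h3 : (a : ℤ) < 2 ^ j := by exact_mod_cast ha
          have h4 : (b : ℤ) < 2 ^ j := by exact_mod_cast hb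
          omega)
      omega
    · rintro rfl
      simp
  simp only [e3]
  push_cast
  rfl

theorem dual (j : ℕ) (u v : ℤ) (h : |v - u| < 2 ^ j) :
    ∑ a ∈ range (2 ^ j), ee ((a : ℝ) * (v : ℝ) / 2 ^ j) * ee (-((a : ℝ) * (u : ℝ) / 2 ^ j))
      = if u = v then (2 : ℂ) ^ j else 0 := by
  have hM : 0 < 2 ^ j := by positivity
  have e1 : ∀ i : ℕ, ee ((i : ℝ) * (v : ℝ) / 2 ^ j) * ee (-((i : ℝ) * (u : ℝ) / 2 ^ j)) =
      ee (((v - u : ℤ) : ℝ) * (i : ℝ) / ((2 ^ j : ℕ) : ℝ)) := by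
    intro i
    rw [← ee_add]
    congr 1
    push_cast
    ring
  simp only [e1]
  rw [geo hM]
  have e3 : ((2 ^ j : ℕ) : ℤ) ∣ v - u ↔ u = v := by
    constructor
    · intro h2
      have h1 := Int.eq_zero_of_abs_lt_dvd h2 (by push_cast; exact h)
      omega
    · rintro rfl
      simp
  simp only [e3]
  push_cast
  rfl

theorem inv (H : ℤ → ℂ) (j : ℕ) (m : ℤ) : ∀ v ∈ blk j m,
    H v = ∑ a ∈ range (2 ^ j), cf H j m a * ee ((a : ℝ) * (v : ℝ) / 2 ^ j) := by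
  intro v hv
  have h2 : (2 : ℂ) ^ j ≠ 0 := pow_ne_zero _ two_ne_zero
  unfold cf
  have e1 : ∀ a ∈ range (2 ^ j), (∑ u ∈ blk j m, H u * ee (-((a : ℝ) * (u : ℝ) / 2 ^ j))) / 2 ^ j *
      ee ((a : ℝ) * (v : ℝ) / 2 ^ j) = ∑ u ∈ blk j m, H u / 2 ^ j *
        (ee ((a : ℝ) * (v : ℝ) / 2 ^ j) * ee (-((a : ℝ) * (u : ℝ) / 2 ^ j))) := by
    intro a _
    rw [div_mul_eq_mul_div, Finset.sum_mul, Finset.sum_div]
    refine Finset.sum_congr rfl fun u _ => ?_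
    ring
  rw [Finset.sum_congr rfl e1, Finset.sum_comm]
  have e2 : ∀ u ∈ blk j m, ∑ a ∈ range (2 ^ j), H u / 2 ^ j *
      (ee ((a : ℝ) * (v : ℝ) / 2 ^ j) * ee (-((a : ℝ) * (u : ℝ) / 2 ^ j))) =
      if u = v then H u else 0 := by
    intro u hu
    unfold blk at hu hv
    rw [mem_Ico] at hu hv
    rw [← Finset.mul_sum, dual j u v (by rw [abs_lt]; constructor <;> nlinarith [hu.1, hu.2, hv.1, hv.2])]
    split_ifs with h
    · rw [div_mul_cancel₀ _ h2]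
    · rw [mul_zero]
  rw [Finset.sum_congr rfl e2, Finset.sum_ite_eq', if_pos hv]

theorem pf_INV : T_INV := by
  intro H j m
  refine ⟨inv H j m, ?_, fun a ha b hb => orth j m ha hb⟩
  have h1 : (((2 : ℝ) ^ j * ∑ a ∈ range (2 ^ j), ‖cf H j m a‖ ^ 2 : ℝ) : ℂ) =
      ((∑ v ∈ blk j m, ‖H v‖ ^ 2 : ℝ) : ℂ) := by
    have h3 : ∀ z : ℂ, ((‖z‖ ^ 2 : ℝ) : ℂ) = z * (starRingEnd ℂ) z := by
      intro z
      rw [Complex.mul_conj, Complex.normSq_eq_norm_sq]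
    rw [Complex.ofReal_sum]
    have h4 : ∀ v ∈ blk j m, ((‖H v‖ ^ 2 : ℝ) : ℂ) = ∑ a ∈ range (2 ^ j), ∑ b ∈ range (2 ^ j),
        cf H j m b * (starRingEnd ℂ) (cf H j m a) *
          (ee ((b : ℝ) * (v : ℝ) / 2 ^ j) * ee (-((a : ℝ) * (v : ℝ) / 2 ^ j))) := by
      intro v hv
      rw [h3]
      conv_lhs => rw [inv H j m v hv]
      rw [map_sum, Finset.sum_mul_sum, Finset.sum_comm]
      refine Finset.sum_congr rfl fun a _ => Finset.sum_congr rfl fun b _ => ?_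
      rw [map_mul, conj_ee]
      ring
    rw [Finset.sum_congr rfl h4, Finset.sum_comm]
    have h5 : ∀ a ∈ range (2 ^ j), ∑ v ∈ blk j m, ∑ b ∈ range (2 ^ j),
        cf H j m b * (starRingEnd ℂ) (cf H j m a) *
          (ee ((b : ℝ) * (v : ℝ) / 2 ^ j) * ee (-((a : ℝ) * (v : ℝ) / 2 ^ j))) =
        2 ^ j * ((‖cf H j m a‖ ^ 2 : ℝ) : ℂ) := by
      intro a ha
      rw [Finset.sum_comm]
      have h6 : ∀ b ∈ range (2 ^ j), ∑ v ∈ blk j m, cf H j m b * (starRingEnd ℂ) (cf H j m a) *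
          (ee ((b : ℝ) * (v : ℝ) / 2 ^ j) * ee (-((a : ℝ) * (v : ℝ) / 2 ^ j))) =
          if a = b then cf H j m b * (starRingEnd ℂ) (cf H j m a) * 2 ^ j else 0 := by
        intro b hb
        rw [← Finset.mul_sum, orth j m ha hb]
        split_ifs
        · rfl
        · rw [mul_zero]
      rw [Finset.sum_congr rfl h6, Finset.sum_ite_eq, if_pos ha, h3]
      ring
    rw [Finset.sum_congr rfl h5, ← Finset.mul_sum]
    push_cast
    rfl
  exact Complex.ofReal_injective h1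

end Pool.Agent.H42.BOU.INV
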